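import Pool.Agent.H50.G.S.W23.DC.Defs
/-!
DC project: the sieve inequalities, pointwise (`St_PT`).
-/

namespace Pool.Agent.W52.DC

open Finset
open Pool.Agent.W23.DC

open Classical in
lemma LL_zero (P : Finset ℕ) (t : ℕ → ℝ) (n k : ℕ) : ∀ (b : Bool) (τ ζ : ℝ) (d : ℕ), ¬ d ∣ n →
    LL P t (fun e => if e ∣ n then 1 else 0) k b τ ζ d = 0 := by
  induction k with
  | zero =>
    intro b τ ζ d hd
    cases b
    · simp [LL]
    · simp [LL, hd]
  | succ k ih =>
    intro b τ ζ d hd
    have h : ∀ p : ℕ, ¬ d * p ∣ n := fun p hp => hd ((Dvd.intro p rfl).trans hp)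
    cases b
    · simp only [LL, if_neg hd]
      rw [Finset.sum_eq_zero (fun p _ => ih true _ _ _ (h p)), sub_zero]
    · simp only [LL, if_neg hd]
      rw [Finset.sum_eq_zero (fun p _ => ih false _ _ _ (h p)), sub_zero]

open Classical in
/-- the middle term -/
noncomputable def II (P : Finset ℕ) (t : ℕ → ℝ) (n : ℕ) (ζ : ℝ) (d : ℕ) : ℝ :=
  if d ∣ n ∧ ∀ p ∈ P, t p < ζ → ¬ p ∣ n then (1 : ℝ) else 0

lemma II_nonneg (P : Finset ℕ) (t : ℕ → ℝ) (n : ℕ) (ζ : ℝ) (d : ℕ) : 0 ≤ II P t n ζ d := by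
  unfold II; split_ifs <;> norm_num

open Classical in
lemma II_eq (P : Finset ℕ) (t : ℕ → ℝ) (hS : Siz P t) (n : ℕ) (ζ : ℝ) (d : ℕ) (hdn : d ∣ n)
    (hd : ∀ p ∈ P, t p < ζ → ¬ p ∣ d) :
    II P t n ζ d = 1 - ∑ p ∈ P.filter (fun p => t p < ζ), II P t n (t p) (d * p) := by
  have hdp : ∀ p ∈ P, t p < ζ → (d * p ∣ n ↔ p ∣ n) := by
    intro p hp hpz
    constructor
    · intro h; exact (Dvd.intro_left d rfl).trans h
    · intro h
      have hc : Nat.Coprime d p := ((Nat.Prime.coprime_iff_not_dvd (hS.pr p hp)).2 (hd p hp hpz)).symm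
      exact hc.mul_dvd_of_dvd_of_dvd hdn h
  by_cases hne : ∃ p, p ∈ P ∧ t p < ζ ∧ p ∣ n
  · have hT : (P.filter (fun p => t p < ζ ∧ p ∣ n)).Nonempty := by
      obtain ⟨p, h1, h2, h3⟩ := hne
      exact ⟨p, Finset.mem_filter.2 ⟨h1, h2, h3⟩⟩
    set p0 := (P.filter (fun p => t p < ζ ∧ p ∣ n)).min' hT with hp0
    have hp0mem := Finset.min'_mem _ hT
    rw [← hp0, Finset.mem_filter] at hp0mem
    obtain ⟨h1, h2, h3⟩ := hp0mem
    have hmin : ∀ q ∈ P, t q < ζ → q ∣ n → p0 ≤ q := fun q hq hq' hqn =>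
      Finset.min'_le _ q (Finset.mem_filter.2 ⟨hq, hq', hqn⟩)
    have hI : II P t n ζ d = 0 := by
      unfold II
      rw [if_neg]
      intro h
      exact h.2 p0 h1 h2 h3
    have hsum : ∑ p ∈ P.filter (fun p => t p < ζ), II P t n (t p) (d * p) = 1 := by
      rw [Finset.sum_eq_single_of_mem p0 (Finset.mem_filter.2 ⟨h1, h2⟩)]
      · unfold II
        rw [if_pos]
        refine ⟨(hdp p0 h1 h2).2 h3, ?_⟩
        intro q hq hqt hqn
        have h4 := hmin q hq (hqt.trans h2) hqn
        have h5 := (hS.mono q hq p0 h1).1 hqt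
        omega
      · intro q hq hqp
        rw [Finset.mem_filter] at hq
        unfold II
        rw [if_neg]
        rintro ⟨h4, h5⟩
        have h6 := (hdp q hq.1 hq.2).1 h4
        have h7 := hmin q hq.1 hq.2 h6
        have h8 : p0 < q := lt_of_le_of_ne h7 (Ne.symm hqp)
        exact h5 p0 h1 ((hS.mono p0 h1 q hq.1).2 h8) h3
    rw [hI, hsum, sub_self]
  · have hI : II P t n ζ d = 1 := by
      unfold II
      rw [if_pos]
      exact ⟨hdn, fun p hp hpz hpn => hne ⟨p, hp, hpz, hpn⟩⟩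
    rw [hI, Finset.sum_eq_zero, sub_zero]
    intro p hp
    rw [Finset.mem_filter] at hp
    unfold II
    rw [if_neg]
    rintro ⟨h4, _⟩
    exact hne ⟨p, hp.1, hp.2, (hdp p hp.1 hp.2).1 h4⟩

open Classical in
lemma main (P : Finset ℕ) (t : ℕ → ℝ) (hS : Siz P t) (n k : ℕ) : ∀ (τ ζ : ℝ) (d : ℕ),
    (∀ p ∈ P, t p < ζ → ¬ p ∣ d) →
    II P t n ζ d ≤ LL P t (fun e => if e ∣ n then 1 else 0) k true τ ζ d ∧
    LL P t (fun e => if e ∣ n then 1 else 0) k false τ ζ d ≤ II P t n ζ d := by
  induction k with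
  | zero =>
    intro τ ζ d hd
    refine ⟨?_, ?_⟩
    · simp only [LL]
      unfold II
      split_ifs with h1 h2 h2
      · exact le_refl _
      · exact absurd h1.1 h2
      · norm_num
      · exact le_refl _
    · simp only [LL]
      exact II_nonneg _ _ _ _ _
  | succ k ih =>
    intro τ ζ d hd
    by_cases hdn : d ∣ n
    · have key := II_eq P t hS n ζ d hdn hd
      have hyp : ∀ p ∈ P, t p < ζ → ∀ q ∈ P, t q < t p → ¬ q ∣ d * p := by
        intro p hp hpz q hq hqp hdvd
        rcases (Nat.Prime.dvd_mul (hS.pr q hq)).1 hdvd with h | h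
        · exact hd q hq (hqp.trans hpz) h
        · have := (Nat.prime_dvd_prime_iff_eq (hS.pr q hq) (hS.pr p hp)).1 h
          subst this
          exact lt_irrefl _ hqp
      refine ⟨?_, ?_⟩
      · simp only [LL, if_pos hdn]
        rw [key]
        apply sub_le_sub_left
        calc ∑ p ∈ P.filter (fun p => t p < ζ ∧ 3 * t p < τ),
              LL P t (fun e => if e ∣ n then 1 else 0) k false (τ - t p) (t p) (d * p)
            ≤ ∑ p ∈ P.filter (fun p => t p < ζ ∧ 3 * t p < τ), II P t n (t p) (d * p) := by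
              apply Finset.sum_le_sum
              intro p hp
              rw [Finset.mem_filter] at hp
              exact (ih (τ - t p) (t p) (d * p) (hyp p hp.1 hp.2.1)).2
          _ ≤ ∑ p ∈ P.filter (fun p => t p < ζ), II P t n (t p) (d * p) := by
              apply Finset.sum_le_sum_of_subset_of_nonneg
              · intro p hp
                rw [Finset.mem_filter] at hp ⊢
                exact ⟨hp.1, hp.2.1⟩
              · intro p _ _
                exact II_nonneg _ _ _ _ _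
      · simp only [LL, if_pos hdn]
        rw [key]
        apply sub_le_sub_left
        apply Finset.sum_le_sum
        intro p hp
        rw [Finset.mem_filter] at hp
        exact (ih (τ - t p) (t p) (d * p) (hyp p hp.1 hp.2)).1
    · rw [LL_zero P t n (k + 1) true τ ζ d hdn, LL_zero P t n (k + 1) false τ ζ d hdn]
      have : II P t n ζ d = 0 := by
        unfold II
        rw [if_neg]
        exact fun h => hdn h.1
      rw [this]
      exact ⟨le_refl _, le_refl _⟩

theorem PT : St_PT := by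
  intro P t hS n k τ ζ d hd
  have h := main P t hS n k τ ζ d hd
  unfold II at h
  exact h

end Pool.Agent.W52.DC
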